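import Mathlib
import Pool.Graph.R_pool_sql_team_seeded_ab47071d.TH25.IF.Main
import Pool.Graph.R_pool_sql_team_seeded_3997aac3.Q6.CI.Vizing

set_option autoImplicit false

namespace Pool.Agent.KS6_31.IFJ

open Finset Pool.Agent.TH25.IF SimpleGraph

section basic

variable {O : Type} [Fintype O]

open Classical in
/-- Vizing -/
theorem ec_of_deg {A : SimpleGraph O} {t : ℕ} (h : ∀ v, (A.neighborSet v).ncard < t) :
    A.lineGraph.Colorable t := by
  rcases Nat.eq_zero_or_pos t with rfl | ht
  · refine ⟨SimpleGraph.Coloring.mk (fun e => ?_) ?_⟩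
    · exfalso
      obtain ⟨e, he⟩ := e
      induction e using Sym2.ind with
      | _ v w => exact absurd (h v) (by omega)
    · rintro ⟨e, he⟩
      exfalso
      induction e using Sym2.ind with
      | _ v w => exact absurd (h v) (by omega)
  obtain ⟨k, rfl⟩ : ∃ k, t = k + 1 := ⟨t - 1, by omega⟩
  refine Pool.Q6.CI.EC.colorable (Pool.Q6.CI.vizing (G := A) (k := k) (fun v => ?_))
  have h1 := h v
  have h2 : Pool.Q6.CI.dg A v = (A.neighborSet v).ncard := by
    unfold Pool.Q6.CI.dg
    rw [Set.ncard_eq_toFinset_card']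
    congr 1
    ext w
    simp
  omega

open Classical in
/-- a proper edge colouring with `t` colours -/
theorem pc_of_ec {A : SimpleGraph O} {t : ℕ} [NeZero t] (h : A.lineGraph.Colorable t) :
    ∃ c : O → O → ZMod t, Pc A c := by
  obtain ⟨k, rfl⟩ : ∃ k, t = k + 1 := ⟨t - 1, by have := NeZero.pos t; omega⟩
  obtain ⟨c, hc⟩ := Pool.Q6.CI.EC.of_colorable h
  have hinj : ∀ a b : ℕ, a < k + 1 → b < k + 1 → ((a : ℕ) : ZMod (k + 1)) = ((b : ℕ) : ZMod (k + 1)) →
      a = b := by
    intro a b ha hb hab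
    have := congrArg ZMod.val hab
    rwa [ZMod.val_natCast_of_lt ha, ZMod.val_natCast_of_lt hb] at this
  refine ⟨fun v w => if A.Adj v w then ((c v w : ℕ) : ZMod (k + 1)) else 0, ?_, ?_⟩
  · intro v w
    by_cases hvw : A.Adj v w
    · simp only [hvw, hvw.symm, if_true, hc.symm v w hvw]
    · have hwv : ¬ A.Adj w v := fun h => hvw h.symm
      simp only [hvw, hwv, if_false]
  · intro v w w' hw hw' he
    simp only [hw, hw', if_true] at he
    exact hc.inj v w w' hw hw' (hinj _ _ (hc.lt _ _ hw) (hc.lt _ _ hw') he)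

open Classical in
/-- graphs with a proper edge colouring -/
theorem div_many {G : SimpleGraph O} {t : ℕ} [NeZero t]
    (hV : ∃ c : O → O → ZMod t, Pc G c) (hd : 2 * t ∣ ∑ v, G.degree v) : Div G (ZMod t) := by
  obtain ⟨m, hm⟩ := hd
  obtain ⟨c0, hc0⟩ := hV
  obtain ⟨c, hc, hcm⟩ := equalise (G := G) (fun _ : ZMod t => 0) (fun _ => zero_le_one) m
    (by rw [hm, ZMod.card]; simp; ring) _ _ hc0 le_rfl
  refine ⟨Mc G c, fun i v w h => h.1, ?_, ?_⟩
  · intro v w hvw
    refine ⟨c v w, (mc_adj hc).2 ⟨hvw, rfl⟩, ?_⟩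
    intro j hj
    exact ((mc_adj hc).1 hj).2.symm
  · intro i j
    refine iso_of_card (mat_mc hc i) (mat_mc hc j) ?_
    have h1 := hcm i
    have h2 := hcm j
    omega

end basic

section star

variable {t h : ℕ} [NeZero t] {O : Type}

theorem div_star [Fintype O] [DecidableEq O] (ht : t = 2 * h) {d0 : ℕ} (h0 : 0 < d0) (h1 : d0 < h)
    (h2 : 2 * d0 ≠ h) {A : SimpleGraph O} [DecidableRel A.Adj] {B : SimpleGraph (ZMod t)}
    (hB : ∀ a x y, B.Adj (x + a) (y + a) ↔ B.Adj x y) (hBh : B.Adj 0 (h : ZMod t))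
    (hd : B.Adj 0 (d0 : ZMod t)) (hd' : B.Adj 0 ((h + d0 : ℕ) : ZMod t))
    (hO : ∃ c0 : O → O → ZMod t, Pc A c0) {m : ℕ} (hm : ∑ v, A.degree v + t = t * (2 * m)) :
    Div (jn A B fun _ => True) (ZMod t) := by
  classical
  have hh : 0 < h := by omega
  obtain ⟨c0, hc0⟩ := hO
  have hm' : ∑ v, A.degree v + 2 * ∑ i : ZMod t, ww h i = Fintype.card (ZMod t) * (2 * m) := by
    rw [sum_ww ht, ZMod.card, ← hm, ht]
  obtain ⟨c, hc, hcm⟩ := equalise (G := A) (fun i : ZMod t => ww h i)
    (fun i => by change ww h i ≤ 1; unfold ww; split_ifs <;> omega) m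
    (by
      rw [← hm']
      congr 1
      refine Finset.sum_congr rfl fun v _ => ?_
      congr 1
      exact Subsingleton.elim _ _) _ _ hc0 le_rfl
  refine ⟨Ff ht hh A B c d0, ?_, ?_, ?_⟩
  · rintro i (a | x) (b | y) hvw
    · exact (ff_ll.1 hvw).1
    · trivial
    · trivial
    · rw [ff_rr] at hvw
      change B.Adj x y
      rcases hvw with ⟨rfl, h3, _⟩ | ⟨rfl, h3, _⟩ | ⟨_, ⟨rfl, rfl⟩ | ⟨rfl, rfl⟩⟩
      · have := (hB x 0 (y - x)).2 h3
        rwa [zero_add, sub_add_cancel] at this
      · have := (hB y 0 (x - y)).2 h3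
        rw [zero_add, sub_add_cancel] at this
        exact this.symm
      · have := (hB (i + (d0 : ZMod t)) 0 (h : ZMod t)).2 hBh
        rw [zero_add, add_comm (h : ZMod t)] at this
        exact this
      · have := (hB (i + (d0 : ZMod t)) 0 (h : ZMod t)).2 hBh
        rw [zero_add, add_comm (h : ZMod t)] at this
        exact this.symm
  · rintro (a | x) (b | y) hvw
    · refine ⟨c a b, ff_ll.2 ((mc_adj hc).2 ⟨hvw, rfl⟩), ?_⟩
      intro j hj
      exact ((mc_adj hc).1 (ff_ll.1 hj)).2.symm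
    · exact ⟨y, ff_lr.2 rfl, fun j hj => (ff_lr.1 hj).symm⟩
    · exact ⟨x, (ff_lr.2 rfl).symm, fun j hj => (ff_lr.1 hj.symm).symm⟩
    · have hvw' : B.Adj x y := hvw
      have hxy : B.Adj 0 (y - x) := by
        have := (hB x 0 (y - x)).1
        rw [zero_add, sub_add_cancel] at this
        exact this hvw'
      have hyx : B.Adj 0 (x - y) := by
        have := (hB y 0 (x - y)).1
        rw [zero_add, sub_add_cancel] at this
        exact this hvw'.symm
      have hne : y - x ≠ 0 := by
        intro he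
        rw [he] at hxy
        exact hxy.ne rfl
      have hneg : x - y = -(y - x) := by ring
      have hhh := cast_add_self ht
      by_cases hz : (y - x).val = h
      · -- diametral edge
        have hz1 : y - x = (h : ZMod t) := (eq_h ht hh).1 hz
        have hz2 : x - y = (h : ZMod t) := by
          rw [hneg, hz1]
          linear_combination -hhh
        have hnd1 : ¬ DD h d0 (y - x) := fun hd => dd_ne h0 hd hz
        have hnd2 : ¬ DD h d0 (x - y) := fun hd => dd_ne h0 hd (by rw [hz2]; exact val_h ht hh)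
        have key : ∀ i, (Ff ht hh A B c d0 i).Adj (Sum.inr x) (Sum.inr y) ↔
            i.val < h ∧ (i = x - (d0 : ZMod t) ∨ i = x - (d0 : ZMod t) + (h : ZMod t)) := by
          intro i
          rw [ff_rr]
          constructor
          · rintro (⟨rfl, _, h3⟩ | ⟨rfl, _, h3⟩ | ⟨hi, ⟨h3, _⟩ | ⟨h3, _⟩⟩)
            · exact absurd h3 hnd1
            · exact absurd h3 hnd2
            · exact ⟨hi, Or.inl (by rw [h3]; ring)⟩
            · refine ⟨hi, Or.inr ?_⟩
              linear_combination -h3 + hz1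
          · rintro ⟨hi, rfl | rfl⟩
            · refine Or.inr (Or.inr ⟨hi, Or.inl ⟨by ring, ?_⟩⟩)
              linear_combination hz1
            · refine Or.inr (Or.inr ⟨hi, Or.inr ⟨?_, ?_⟩⟩)
              · linear_combination hz1
              · linear_combination -hhh
        have hxor := small_xor ht hh (x - (d0 : ZMod t))
        by_cases hs : (x - (d0 : ZMod t)).val < h
        · refine ⟨x - (d0 : ZMod t), (key _).2 ⟨hs, Or.inl rfl⟩, ?_⟩
          intro j hj
          obtain ⟨hj1, hj2 | hj2⟩ := (key j).1 hj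
          · exact hj2
          · rw [hj2] at hj1
            exact absurd hj1 (hxor.1 hs)
        · have hs2 : (x - (d0 : ZMod t) + (h : ZMod t)).val < h := by
            by_contra hcon
            exact hs (hxor.2 hcon)
          refine ⟨x - (d0 : ZMod t) + (h : ZMod t), (key _).2 ⟨hs2, Or.inr rfl⟩, ?_⟩
          intro j hj
          obtain ⟨hj1, hj2 | hj2⟩ := (key j).1 hj
          · rw [hj2] at hj1
            exact absurd hj1 hs
          · exact hj2
      · -- other edges
        have hdd := dd_neg ht h0 h1 hne hz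
        rw [← hneg] at hdd
        have hz' : ∀ i, ¬ (i.val < h ∧ ((x = i + (d0 : ZMod t) ∧
            y = i + (d0 : ZMod t) + (h : ZMod t)) ∨
            (y = i + (d0 : ZMod t) ∧ x = i + (d0 : ZMod t) + (h : ZMod t)))) := by
          rintro i ⟨_, ⟨rfl, rfl⟩ | ⟨rfl, rfl⟩⟩
          · exact hz ((eq_h ht hh).2 (by ring))
          · refine hz ((eq_h ht hh).2 ?_)
            linear_combination -hhh
        by_cases hD : DD h d0 (y - x)
        · refine ⟨x, ff_rr.2 (Or.inl ⟨rfl, hxy, hD⟩), ?_⟩
          intro j hj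
          rcases ff_rr.1 hj with ⟨h3, _⟩ | ⟨rfl, _, h3⟩ | h3
          · exact h3.symm
          · exact absurd h3 (hdd.1 hD)
          · exact absurd h3 (hz' j)
        · have hD' : DD h d0 (x - y) := by
            by_contra hcon
            exact hD (hdd.2 hcon)
          refine ⟨y, ff_rr.2 (Or.inr (Or.inl ⟨rfl, hyx, hD'⟩)), ?_⟩
          intro j hj
          rcases ff_rr.1 hj with ⟨rfl, _, h3⟩ | ⟨h3, _⟩ | h3
          · exact absurd h3 hD
          · exact h3.symm
          · exact absurd h3 (hz' j)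
  · intro i j
    have hcards : (cv (Nn A c h i)).card = (cv (Nn A c h j)).card := by
      rw [card_nn hc, card_nn hc]
      exact (hcm i).trans (hcm j).symm
    obtain ⟨φ⟩ := iso_of_card (mat_nn (h := h) hc i) (mat_nn (h := h) hc j) hcards
    have hleaf : ∀ a, lf B h d0 i (im (O := O) ht hh d0 i a) := by
      rintro (a | b)
      · trivial
      · change B.Adj 0 (i + (d0 : ZMod t) + (if b then (h : ZMod t) else 0) - i) ∧
          DD h d0 (i + (d0 : ZMod t) + (if b then (h : ZMod t) else 0) - i)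
        cases b
        · have e1 : i + (d0 : ZMod t) + (if false = true then (h : ZMod t) else 0) - i =
              (d0 : ZMod t) := by simp
          rw [e1]
          refine ⟨hd, Or.inl ?_⟩
          rw [ZMod.val_natCast_of_lt (by omega)]
          omega
        · have e1 : i + (d0 : ZMod t) + (if true = true then (h : ZMod t) else 0) - i =
              ((h + d0 : ℕ) : ZMod t) := by
            rw [if_pos rfl]; push_cast; ring
          rw [e1]
          refine ⟨hd', Or.inr ?_⟩
          rw [ZMod.val_natCast_of_lt (by omega)]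
    obtain ⟨e1⟩ := sg_inner (hl := lf_ctr B h d0 i) hleaf φ
    obtain ⟨e2⟩ := sg_transport (N := Nn A c h j) (hl := lf_ctr B h d0 i)
      (hl' := lf_ctr B h d0 j) (ι := im ht hh d0 i) (ι' := im ht hh d0 j)
      (Equiv.sumCongr (Equiv.refl O) (Equiv.addRight (j - i)))
      (by
        change Sum.inr (i + (j - i)) = Sum.inr j
        rw [add_sub_cancel])
      (by
        rintro (a | y)
        · exact Iff.rfl
        · change _ ↔ B.Adj 0 (y + (j - i) - j) ∧ DD h d0 (y + (j - i) - j)
          have : y + (j - i) - j = y - i := by ring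
          rw [this]
          exact Iff.rfl)
      (by
        rintro (a | b)
        · rfl
        · change Sum.inr _ = Sum.inr _
          congr 1
          change i + (d0 : ZMod t) + (if b then (h : ZMod t) else 0) + (j - i) =
            j + (d0 : ZMod t) + (if b then (h : ZMod t) else 0)
          ring)
    exact ⟨e1.trans e2⟩


end star

/-- associativity -/
theorem jn_assoc {O : Type} (A : SimpleGraph O) (ρ σ n : ℕ) :
    Nonempty (jn (jn A (completeEquipartiteGraph ρ n) fun _ => True)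
      (completeEquipartiteGraph σ n) (fun _ => True) ≃g
      jn A (completeEquipartiteGraph (ρ + σ) n) fun _ => True) := by
  obtain ⟨e⟩ := jn_equi ρ σ n
  refine ⟨⟨(Equiv.sumAssoc _ _ _).trans (Equiv.sumCongr (Equiv.refl O) e.toEquiv), ?_⟩⟩
  rintro ((a | x) | y) ((b | x') | y')
  · exact Iff.rfl
  · exact Iff.rfl
  · exact Iff.rfl
  · exact Iff.rfl
  · exact e.map_adj_iff (v := Sum.inl x) (w := Sum.inl x')
  · exact e.map_adj_iff (v := Sum.inl x) (w := Sum.inr y')
  · exact Iff.rfl
  · exact e.map_adj_iff (v := Sum.inr y) (w := Sum.inl x')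
  · exact e.map_adj_iff (v := Sum.inr y) (w := Sum.inr y')

variable {O : Type}

theorem step_a {n τ : ℕ} (hn : 1 ≤ n) (hτ : 1 ≤ τ) (hpar : Even n ∨ Odd τ) {A : SimpleGraph O}
    (h : Div A (ZMod (n * τ))) :
    Div (jn A (completeEquipartiteGraph τ n) fun _ => True) (ZMod (n * τ)) := by
  have : NeZero (n * τ) := ⟨by positivity⟩
  have : NeZero τ := ⟨by omega⟩
  obtain ⟨e1⟩ := rg_iso (T := n * τ) (σ := τ) (dvd_mul_left τ n) rfl
  obtain ⟨e2⟩ := jn_iso (A := A) (c := fun _ => True)
    (c' := fun _ => True) (RelIso.refl _) e1 (fun _ => Iff.rfl)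
  refine Div.of_iso (RelIso.symm e2) ?_
  refine Div.cyc (dvd_refl _) (rg_add _) ?_ h
  intro x y hxy hv
  exfalso
  apply hxy
  rw [cast_val]
  have hne : Even n := by
    rcases hpar with hp | hp
    · exact hp
    · have h2 : Even (n * τ) := ⟨_, by rw [← hv, two_mul]⟩
      rw [Nat.even_mul] at h2
      rcases h2 with h2 | h2
      · exact h2
      · exact absurd hp (Nat.not_odd_iff_even.2 h2)
  obtain ⟨k, hk⟩ := hne
  refine ⟨k, ?_⟩
  have : 2 * (y - x).val = 2 * (τ * k) := by rw [hv, hk]; ring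
  omega

theorem step_b {n τ : ℕ} (hn : 1 ≤ n) (hτ : 1 ≤ τ) {A : SimpleGraph O}
    (h : Div A (ZMod (n * τ))) :
    Div (jn A (completeEquipartiteGraph (2 * τ) n) fun _ => True) (ZMod (n * τ)) := by
  have : NeZero (n * τ) := ⟨by positivity⟩
  have : NeZero (2 * τ) := ⟨by omega⟩
  have : NeZero (n * (2 * τ)) := ⟨by positivity⟩
  obtain ⟨e1⟩ := rg_iso (T := n * (2 * τ)) (σ := 2 * τ) (dvd_mul_left _ n) rfl
  obtain ⟨e2⟩ := jn_iso (A := A) (c := fun _ => True)
    (c' := fun _ => True) (RelIso.refl _) e1 (fun _ => Iff.rfl)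
  refine Div.of_iso (RelIso.symm e2) ?_
  refine Div.cyc (⟨2, by ring⟩) (rg_add _) ?_ h
  intro x y _ hv
  rw [cast_val]
  refine ⟨1, ?_⟩
  have : 2 * (y - x).val = 2 * (n * τ * 1) := by rw [hv]; ring
  omega

open Classical in
theorem step_c [Fintype O] {n τ : ℕ} (hn : Odd n) (hτ : Even τ) (h2 : 2 < τ) (h4 : n * τ ≠ 4)
    {A : SimpleGraph O} (hA : ∃ c : O → O → ZMod (n * τ), Pc A c) {m : ℕ}
    (hm : ∑ v, A.degree v + n * τ = n * τ * (2 * m)) :
    Div (jn A (completeEquipartiteGraph τ n) fun _ => True) (ZMod (n * τ)) := by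
  have hn0 : 1 ≤ n := hn.pos
  have : NeZero (n * τ) := ⟨by positivity⟩
  have : NeZero τ := ⟨by omega⟩
  obtain ⟨e1⟩ := rg_iso (T := n * τ) (σ := τ) (dvd_mul_left τ n) rfl
  obtain ⟨e2⟩ := jn_iso (A := A) (c := fun _ => True)
    (c' := fun _ => True) (RelIso.refl _) e1 (fun _ => Iff.rfl)
  refine Div.of_iso (RelIso.symm e2) ?_
  obtain ⟨u, hu⟩ := hτ
  obtain ⟨k, hk⟩ := hn
  have hth : n * τ = 2 * (n * u) := by rw [hu]; ring
  have hnu : u ≤ n * u := Nat.le_mul_of_pos_left _ (by omega)
  have hmod : n * u = τ * k + u := by rw [hk, hu]; ring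
  have hadj : ∀ j : ℕ, (Rg (dvd_mul_left τ n)).Adj 0 ((j : ℕ) : ZMod (n * τ)) ↔ ¬ τ ∣ j := by
    intro j
    rw [rg_adj, map_zero, map_natCast, ne_comm, Ne, ZMod.natCast_eq_zero_iff]
  refine div_star (h := n * u) (d0 := 1) (m := m) hth one_pos (by omega) (by omega) (rg_add _)
    ((hadj _).2 ?_) ((hadj _).2 ?_) ((hadj _).2 ?_) hA hm
  · rw [hmod, Nat.dvd_add_right (dvd_mul_right τ k)]
    exact fun hd => by have := Nat.le_of_dvd (by omega) hd; omega
  · exact fun hd => by have := Nat.le_of_dvd (by omega) hd; omega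
  · rw [hmod, add_assoc, Nat.dvd_add_right (dvd_mul_right τ k)]
    exact fun hd => by have := Nat.le_of_dvd (by omega) hd; omega

end Pool.Agent.KS6_31.IFJ
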