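import Mathlib
import Pool.Agent.KS6_31.IFJ.IF1

set_option autoImplicit false

namespace Pool.Agent.KS6_31.IFJ

open Finset Pool.Agent.TH25.IF SimpleGraph

variable {O : Type}

theorem jn_zero (A : SimpleGraph O) (n : ℕ) :
    Nonempty (A ≃g jn A (completeEquipartiteGraph 0 n) fun _ => True) := by
  refine ⟨⟨(Equiv.sumEmpty O (Fin 0 × Fin n)).symm, ?_⟩⟩
  intro a b
  exact Iff.rfl

theorem cast_div {V : Type} {G : SimpleGraph V} {a b : ℕ} (h : a = b) (hd : Div G (ZMod a)) :
    Div G (ZMod b) := h ▸ hd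

/-- the graph `A ∨ K_{r×n}` -/
abbrev J (A : SimpleGraph O) (r n : ℕ) : SimpleGraph (O ⊕ (Fin r × Fin n)) :=
  jn A (completeEquipartiteGraph r n) fun _ => True

theorem iter_a {n τ : ℕ} (hn : 1 ≤ n) (hτ : 1 ≤ τ) (hpar : Even n ∨ Odd τ) {A : SimpleGraph O}
    (h : Div A (ZMod (n * τ))) (m : ℕ) : Div (J A (m * τ) n) (ZMod (n * τ)) := by
  induction m with
  | zero =>
    obtain ⟨e⟩ := jn_zero A n
    rw [Nat.zero_mul]
    exact Div.of_iso e h
  | succ m ih =>
    obtain ⟨e⟩ := jn_assoc A (m * τ) τ n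
    have h1 := Div.of_iso e (step_a hn hτ hpar ih)
    rw [Nat.succ_mul]
    exact h1

theorem iter_b {n τ : ℕ} (hn : 1 ≤ n) (hτ : 1 ≤ τ) {A : SimpleGraph O} {ρ : ℕ}
    (h : Div (J A ρ n) (ZMod (n * τ))) (m : ℕ) :
    Div (J A (ρ + m * (2 * τ)) n) (ZMod (n * τ)) := by
  induction m with
  | zero =>
    rw [Nat.zero_mul, Nat.add_zero]
    exact h
  | succ m ih =>
    obtain ⟨e⟩ := jn_assoc A (ρ + m * (2 * τ)) (2 * τ) n
    have h1 := Div.of_iso e (step_b hn hτ ih)
    rw [Nat.succ_mul, ← Nat.add_assoc]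
    exact h1

open Classical in
theorem deg_eq_sum {V : Type} [Fintype V] (G : SimpleGraph V) (v : V) :
    G.degree v = ∑ w, if G.Adj v w then 1 else 0 := by
  rw [← SimpleGraph.card_neighborFinset_eq_degree, Finset.card_eq_sum_ones,
    ← Finset.sum_filter]
  refine Finset.sum_congr ?_ fun _ _ => rfl
  ext w
  simp

open Classical in
theorem sum_deg_jn {Z : Type} [Fintype O] [Fintype Z] (A : SimpleGraph O) (B : SimpleGraph Z) :
    ∑ v, (jn A B fun _ => True).degree v =
      ∑ a, A.degree a + ∑ x, B.degree x + 2 * (Fintype.card O * Fintype.card Z) := by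
  simp only [deg_eq_sum, Fintype.sum_sum_type, jn_ll, jn_rr, jn_lr, jn_rl, if_true,
    Finset.sum_add_distrib, Finset.sum_const, Finset.card_univ, smul_eq_mul, mul_one]
  ring

open Classical in
theorem edges_jn [Fintype O] (A : SimpleGraph O) (r n : ℕ) :
    (J A r n).edgeSet.ncard = A.edgeSet.ncard + Fintype.card O * (r * n) + n ^ 2 * r.choose 2 := by
  have h1 := sum_deg_jn A (completeEquipartiteGraph r n)
  have h2 : ∀ {V : Type} [Fintype V] (G : SimpleGraph V), ∑ v, G.degree v = 2 * G.edgeSet.ncard := by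
    intro V _ G
    rw [G.sum_degrees_eq_twice_card_edges, Set.ncard_eq_toFinset_card']
    rfl
  rw [h2, h2, h2] at h1
  have h3 : (completeEquipartiteGraph r n).edgeSet.ncard = r.choose 2 * n ^ 2 := by
    rw [Set.ncard_eq_toFinset_card', ← card_edgeFinset_completeEquipartiteGraph]
    congr
  rw [h3] at h1
  rw [Fintype.card_prod, Fintype.card_fin, Fintype.card_fin] at h1
  have h4 : r.choose 2 * n ^ 2 = n ^ 2 * r.choose 2 := mul_comm _ _
  rw [h4] at h1
  have h5 : 2 * (J A r n).edgeSet.ncard =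
      2 * (A.edgeSet.ncard + Fintype.card O * (r * n) + n ^ 2 * r.choose 2) := by
    rw [h1]; ring
  exact Nat.eq_of_mul_eq_mul_left (by norm_num) h5

open Classical in
theorem sum_deg_two [Fintype O] (A : SimpleGraph O) :
    ∑ v, A.degree v = 2 * A.edgeSet.ncard := by
  rw [A.sum_degrees_eq_twice_card_edges, Set.ncard_eq_toFinset_card']
  rfl

open Classical in
/-- the divisibility theorem for joins, one direction -/
theorem main_join [Fintype O] {n τ m : ℕ} (hn : 1 ≤ n) (hτ : 1 ≤ τ) {A : SimpleGraph O}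
    (hA : A.lineGraph.Colorable (n * τ))
    (hex : ¬ (Odd n ∧ Odd m ∧ (τ = 2 ∨ (n = 1 ∧ τ = 4))))
    (hd : n * τ ∣ A.edgeSet.ncard + Fintype.card O * ((m * τ) * n) + n ^ 2 * (m * τ).choose 2) :
    Div (J A (m * τ) n) (ZMod (n * τ)) := by
  have : NeZero (n * τ) := ⟨by positivity⟩
  have hpc := pc_of_ec hA
  have h1 : n * τ ∣ Fintype.card O * ((m * τ) * n) := ⟨Fintype.card O * m, by ring⟩
  have h3 := two_choose (m * τ)
  -- the case in which the number of edges of `A` is divisible by `n τ`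
  have caseE : n * τ ∣ n ^ 2 * (m * τ).choose 2 → n * τ ∣ A.edgeSet.ncard := by
    intro h2
    exact (Nat.dvd_add_left h1).1 ((Nat.dvd_add_left h2).1 hd)
  have divA : n * τ ∣ A.edgeSet.ncard → Div A (ZMod (n * τ)) := by
    intro h
    refine div_many hpc ?_
    rw [sum_deg_two]
    exact Nat.mul_dvd_mul_left 2 h
  by_cases hpar : Even n ∨ Odd τ
  · have h2 : n * τ ∣ n ^ 2 * (m * τ).choose 2 := by
      rcases hpar with ⟨k, hk⟩ | hodd
      · have e1 : n ^ 2 * (m * τ).choose 2 + n * k * (m * τ) = n * k * (m * τ * (m * τ)) := by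
          rw [← h3]
          have : n ^ 2 = n * (2 * k) := by rw [pow_two]; nth_rewrite 2 [hk]; ring
          rw [this]
          ring
        have e2 : n * τ ∣ n * k * (m * τ * (m * τ)) := ⟨k * m * m * τ, by ring⟩
        rw [← e1] at e2
        exact (Nat.dvd_add_left ⟨k * m, by ring⟩).1 e2
      · have e1 : τ ∣ 2 * (m * τ).choose 2 := by
          have : τ ∣ 2 * (m * τ).choose 2 + m * τ := by
            rw [h3]; exact ⟨m * (m * τ), by ring⟩
          exact (Nat.dvd_add_left ⟨m, by ring⟩).1 this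
        have e2 : τ ∣ (m * τ).choose 2 :=
          (Nat.Coprime.dvd_mul_left (Nat.coprime_comm.1 (Nat.coprime_two_left.2 hodd))).1 e1
        obtain ⟨q, hq⟩ := e2
        exact ⟨n * q, by rw [hq]; ring⟩
    exact iter_a hn hτ hpar (divA (caseE h2)) m
  · push Not at hpar
    obtain ⟨hn', hτ'⟩ := hpar
    rw [Nat.not_even_iff_odd] at hn'
    rw [Nat.not_odd_iff_even] at hτ'
    rcases Nat.even_or_odd' m with ⟨j, hj | hj⟩
    · have h2 : n * τ ∣ n ^ 2 * (m * τ).choose 2 := by
        have e0 : 2 * (m * τ).choose 2 + 2 * (j * τ) = 2 * (j * τ * (m * τ)) := by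
          have : 2 * (m * τ).choose 2 + m * τ = m * τ * (m * τ) := h3
          have e3 : m * τ = 2 * (j * τ) := by rw [hj]; ring
          have e4 : m * τ * (m * τ) = 2 * (j * τ * (m * τ)) := by nth_rewrite 1 [hj]; ring
          omega
        have e1 : (m * τ).choose 2 + j * τ = j * τ * (m * τ) := by omega
        have e2 : τ ∣ (m * τ).choose 2 := by
          have : τ ∣ (m * τ).choose 2 + j * τ := by rw [e1]; exact ⟨j * (m * τ), by ring⟩
          exact (Nat.dvd_add_left ⟨j, by ring⟩).1 this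
        obtain ⟨q, hq⟩ := e2
        exact ⟨n * q, by rw [hq]; ring⟩
      obtain ⟨e⟩ := jn_zero A n
      have h5 := iter_b hn hτ (Div.of_iso e (divA (caseE h2))) j
      have e5 : 0 + j * (2 * τ) = m * τ := by rw [hj]; ring
      rw [e5] at h5
      exact h5
    · obtain ⟨u, hu⟩ := hτ'
      obtain ⟨q, hq⟩ := hd
      have hnm : Odd (n * m) := hn'.mul ⟨j, by omega⟩
      obtain ⟨i, hi⟩ := hnm
      -- `2 n² C + t (2 i + 1) = 2 t X`
      have e1 : 2 * (n ^ 2 * (m * τ).choose 2) + n * τ * (2 * i + 1) =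
          2 * (n * τ) * (n * m * m * u) := by
        have e2 : n ^ 2 * (2 * (m * τ).choose 2 + m * τ) = n ^ 2 * (m * τ * (m * τ)) := by rw [h3]
        have e3 : n ^ 2 * (m * τ * (m * τ)) = 2 * (n * τ) * (n * m * m * u) := by
          have : m * τ * (m * τ) = m * τ * (m * (2 * u)) := by
            nth_rewrite 2 [hu]; ring
          rw [this]; ring
        have e4 : n ^ 2 * (2 * (m * τ).choose 2 + m * τ) =
            2 * (n ^ 2 * (m * τ).choose 2) + n * τ * (n * m) := by ring
        rw [← e3, ← e2, e4, hi]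
      have e5 : 2 * A.edgeSet.ncard + n * τ + 2 * (n * τ) * (Fintype.card O * m + n * m * m * u) =
          2 * (n * τ) * (q + i + 1) := by
        have e6 : 2 * (n * τ * q) = 2 * A.edgeSet.ncard + 2 * (n * τ) * (Fintype.card O * m) +
            2 * (n ^ 2 * (m * τ).choose 2) := by
          rw [← hq]; ring
        have e7 : 2 * (n * τ) * (q + i + 1) = 2 * (n * τ * q) + n * τ * (2 * i + 1) + n * τ := by ring
        have e8 : 2 * (n * τ) * (Fintype.card O * m + n * m * m * u) =
            2 * (n * τ) * (Fintype.card O * m) + 2 * (n * τ) * (n * m * m * u) := by ring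
        rw [e7, e8, e6, ← e1]
        ring
      have e9 : 2 * (n * τ) ∣ 2 * A.edgeSet.ncard + n * τ := by
        have : 2 * (n * τ) ∣ 2 * A.edgeSet.ncard + n * τ +
            2 * (n * τ) * (Fintype.card O * m + n * m * m * u) := ⟨_, e5⟩
        exact (Nat.dvd_add_left (dvd_mul_right _ _)).1 this
      obtain ⟨m', hm'⟩ := e9
      have hmodd : Odd m := ⟨j, by omega⟩
      have hτ2 : 2 < τ := by
        by_contra hcon
        have : τ = 2 := by omega
        exact hex ⟨hn', hmodd, Or.inl this⟩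
      have h4 : n * τ ≠ 4 := by
        intro h4
        have hd4 : n ∣ 4 := ⟨τ, h4.symm⟩
        have hle := Nat.le_of_dvd (by norm_num) hd4
        obtain ⟨k, hk⟩ := hn'
        have hn1 : n = 1 := by
          interval_cases n <;> omega
        exact hex ⟨⟨k, hk⟩, hmodd, Or.inr ⟨hn1, by rw [hn1] at h4; omega⟩⟩
      have h5 := step_c (A := A) hn' ⟨u, hu⟩ hτ2 h4 hpc (m := m') (by
        rw [sum_deg_two, hm']; ring)
      have h6 := iter_b hn hτ (ρ := τ) h5 j
      have e10 : τ + j * (2 * τ) = m * τ := by rw [hj]; ring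
      rw [e10] at h6
      exact h6

theorem finDiv {V : Type} {G : SimpleGraph V} {t : ℕ} (ht : 1 ≤ t) :
    Div G (Fin t) ↔ Div G (ZMod t) := by
  have : NeZero t := ⟨by omega⟩
  exact ⟨fun h => Div.of_equiv (ZMod.finEquiv t).toEquiv h,
    fun h => Div.of_equiv (ZMod.finEquiv t).symm.toEquiv h⟩

theorem div_dvd' {V : Type} [Fintype V] {G : SimpleGraph V} {t : ℕ} (h : Div G (Fin t)) :
    t ∣ G.edgeSet.ncard := by
  classical
  have h1 := div_dvd h
  rw [Fintype.card_fin] at h1
  rw [Set.ncard_eq_toFinset_card']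
  exact h1

/-- adding a circulant graph -/
theorem circ {t T : ℕ} (ht : 1 ≤ t) (hT : 1 ≤ T) (h : t ∣ T) {A : SimpleGraph O}
    {B : SimpleGraph (ZMod T)} (hB : ∀ a x y, B.Adj (x + a) (y + a) ↔ B.Adj x y)
    (hd : ∀ d : ℕ, 2 * d = T → ¬ t ∣ d → ¬ B.Adj 0 (d : ZMod T)) (hA : Div A (Fin t)) :
    Div (jn A B fun _ => True) (Fin t) := by
  have : NeZero t := ⟨by omega⟩
  have : NeZero T := ⟨by omega⟩
  refine (finDiv ht).2 (Div.cyc h hB ?_ ((finDiv ht).1 hA))
  intro x y hxy hv
  have h1 : B.Adj 0 (((y - x).val : ℕ) : ZMod T) := by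
    rw [ZMod.natCast_zmod_val]
    have := (hB x 0 (y - x)).1
    rw [zero_add, sub_add_cancel] at this
    exact this hxy
  have h2 : t ∣ (y - x).val := by
    by_contra hcon
    exact hd _ hv hcon h1
  have h3 : ZMod.castHom h (ZMod t) (y - x) = 0 := by
    conv_lhs => rw [← ZMod.natCast_zmod_val (y - x)]
    rw [map_natCast]
    exact (ZMod.natCast_eq_zero_iff _ _).2 h2
  rw [map_sub, sub_eq_zero] at h3
  exact h3.symm

end Pool.Agent.KS6_31.IFJ
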